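import Mathlib
import Pool.Agent.Helper28.SetAlgDefs
import Pool.Agent.Helper28.SetAlgMain

set_option autoImplicit false

namespace Pool.Agent.Results.MP_2db6a9_co.InfiniteAlgebras

open MeasureTheory Pool.Agent.Helper28.SetAlg

universe u

/-- For a set algebra `B` the following are equivalent: `B` is finite; every set function of
bounded variation on `B` is a difference of two bounded submodular set functions; every increasing
set function on `B` with values in `[0, 1]` is a difference of two bounded submodular set
functions. -/
theorem result {J : Type u} (B : Set (Set J)) (hB : IsSetAlgebra B) :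
    [B.Finite,
     ∀ φ : Set J → ℝ, BoundedVariation B φ → DiffOfBoundedSubmodular B φ,
     ∀ φ : Set J → ℝ, Increasing B φ → (∀ X ∈ B, 0 ≤ φ X ∧ φ X ≤ 1) →
       DiffOfBoundedSubmodular B φ].TFAE :=
  Pool.Agent.Helper28.SetAlg.main B hB

end Pool.Agent.Results.MP_2db6a9_co.InfiniteAlgebras
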